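import Mathlib
import Pool.Agent.Helper38.RS.Goals2

/-!
# RS-LOB: lower bound for the local conditions
-/

set_option autoImplicit false

namespace Pool.Agent.Helper32.RS

open NumberField Polynomial Module IsDedekindDomain Pool.Agent.Helper38.RS
open Pool.Agent.Helper51.SigLeo

section conj

variable {K M : Type} [Field K] [Field M] [NumberField M] [Algebra K M]

/-- the ring automorphism of the integers induced by `δ` -/
noncomputable def eo (δ : M ≃ₐ[K] M) : 𝓞 M ≃+* 𝓞 M :=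
  RingOfIntegers.mapRingEquiv (δ : M ≃+* M)

theorem eo_coe (δ : M ≃ₐ[K] M) (r : 𝓞 M) : ((eo δ r : 𝓞 M) : M) = δ (r : M) := rfl

/-- the prime `δ⁻¹ w` -/
noncomputable def pr (δ : M ≃ₐ[K] M) (w : HeightOneSpectrum (𝓞 M)) : HeightOneSpectrum (𝓞 M) :=
  HeightOneSpectrum.comap (eo δ : 𝓞 M →+* 𝓞 M) (eo δ).surjective w

theorem pr_int (δ : M ≃ₐ[K] M) (w : HeightOneSpectrum (𝓞 M)) (r : 𝓞 M) :
    w.intValuation (eo δ r) = (pr δ w).intValuation r := by
  by_cases hr : r = 0
  · rw [hr, map_zero, map_zero, map_zero]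
  have hr' : eo δ r ≠ 0 := (map_ne_zero_iff _ (eo δ).injective).2 hr
  have key : ∀ n : ℕ, (pr δ w).intValuation r ≤ WithZero.exp (-(n : ℤ)) ↔
      w.intValuation (eo δ r) ≤ WithZero.exp (-(n : ℤ)) := by
    intro n
    rw [HeightOneSpectrum.intValuation_le_pow_iff_mem, HeightOneSpectrum.intValuation_le_pow_iff_mem]
    have h1 : (pr δ w).asIdeal ^ n = (w.asIdeal ^ n).comap (eo δ) := by
      have h2 : (pr δ w).asIdeal = w.asIdeal.comap (eo δ) := rfl
      rw [h2, ← Ideal.map_symm, ← Ideal.map_symm, Ideal.map_pow]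
    rw [h1, Ideal.mem_comap]
  rw [HeightOneSpectrum.intValuation_if_neg _ hr, HeightOneSpectrum.intValuation_if_neg _ hr'] at *
  set p := (Associates.mk (pr δ w).asIdeal).count
    (Associates.mk (Ideal.span {r} : Ideal (𝓞 M))).factors
  set q := (Associates.mk w.asIdeal).count
    (Associates.mk (Ideal.span {eo δ r} : Ideal (𝓞 M))).factors
  have h3 := key p
  have h4 := key q
  rw [WithZero.exp_le_exp, WithZero.exp_le_exp] at h3 h4
  congr 1
  have h5 := h3.1 le_rfl
  have h6 := h4.2 le_rfl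
  omega

theorem pr_val (δ : M ≃ₐ[K] M) (w : HeightOneSpectrum (𝓞 M)) (y : M) :
    w.valuation M (δ y) = (pr δ w).valuation M y := by
  obtain ⟨r, s, hs, rfl⟩ := IsFractionRing.div_surjective (A := 𝓞 M) y
  rw [map_div₀, map_div₀, map_div₀]
  have h : ∀ r : 𝓞 M, w.valuation M (δ (algebraMap (𝓞 M) M r)) =
      (pr δ w).valuation M (algebraMap (𝓞 M) M r) := by
    intro r
    rw [HeightOneSpectrum.valuation_of_algebraMap, ← pr_int]
    have : δ (algebraMap (𝓞 M) M r) = algebraMap (𝓞 M) M (eo δ r) := rfl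
    rw [this, HeightOneSpectrum.valuation_of_algebraMap]
  rw [h r, h s]

theorem val_inj {v w : HeightOneSpectrum (𝓞 M)} (h : ∀ y : M, v.valuation M y = w.valuation M y) :
    v = w := by
  refine HeightOneSpectrum.eq_of_valuation_isEquiv_valuation (K := M) ?_
  have : v.valuation M = w.valuation M := Valuation.ext h
  rw [this]

end conj

section quot

/-- `Mˣ` modulo squares as a module over `ZMod 2` -/
theorem quot_mod {K M : Type} [Field K] [Field M] [Algebra K M] (δ : M ≃ₐ[K] M) :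
    ∃ (V : Type) (_ : AddCommGroup V) (_ : Module (ZMod 2) V) (φ : V →ₗ[ZMod 2] V)
      (q : Mˣ →* Multiplicative V), (∀ x, q x = 1 ↔ Sq x) ∧
      ∀ x, (q (Units.map ((δ : M →+* M) : M →* M) x)).toAdd = φ (q x).toAdd := by
  let sq : Subgroup Mˣ := (powMonoidHom 2 : Mˣ →* Mˣ).range
  let f : Mˣ →* Mˣ := Units.map ((δ : M →+* M) : M →* M)
  have hf : sq ≤ sq.comap f := by
    rintro _ ⟨y, rfl⟩
    exact ⟨f y, by simp [powMonoidHom]⟩
  let V := Additive (Mˣ ⧸ sq)
  letI i1 : AddCommGroup V := Additive.addCommGroup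
  have h2 : ∀ x : V, (2 : ℕ) • x = 0 := by
    intro x
    obtain ⟨y, hy⟩ := QuotientGroup.mk_surjective (s := sq) (Additive.toMul x)
    have h3 : x = Additive.ofMul (QuotientGroup.mk y : Mˣ ⧸ sq) := by rw [hy]; rfl
    rw [h3, ← ofMul_pow, ← QuotientGroup.mk_pow]
    have h4 : (QuotientGroup.mk (y ^ 2) : Mˣ ⧸ sq) = 1 :=
      (QuotientGroup.eq_one_iff _).2 ⟨y, rfl⟩
    rw [h4]
    rfl
  letI i2 : @Module (ZMod 2) V _ i1.toAddCommMonoid := AddCommGroup.zmodModule h2
  let g : (Mˣ ⧸ sq) →* (Mˣ ⧸ sq) := QuotientGroup.map sq sq f hf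
  let q : Mˣ →* Multiplicative V := QuotientGroup.mk' sq
  refine ⟨V, i1, i2, (MonoidHom.toAdditive g).toZModLinearMap 2, q, ?_, ?_⟩
  · intro x
    have : q x = 1 ↔ (QuotientGroup.mk x : Mˣ ⧸ sq) = 1 := Iff.rfl
    rw [this, QuotientGroup.eq_one_iff]
    constructor
    · rintro ⟨y, hy⟩
      exact ⟨y, hy.symm⟩
    · rintro ⟨y, hy⟩
      exact ⟨y, hy.symm⟩
  · intro x
    rfl

theorem pol_apply {K M : Type} [Field K] [Field M] [Algebra K M] (δ : M ≃ₐ[K] M)
    (P : (ZMod 2)[X]) (x : Mˣ) :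
    pol P δ x = ∏ j ∈ P.support, (Units.map ((δ : M →+* M) : M →* M))^[j] x := by
  unfold pol
  rw [MonoidHom.finsetProd_apply]
  refine Finset.prod_congr rfl fun j hj => ?_
  clear hj
  induction j with
  | zero =>
    ext
    simp
  | succ n ih =>
    rw [Function.iterate_succ_apply', ← ih]
    ext
    simp [pow_succ']

theorem aeval_lin {V : Type} [AddCommGroup V] [Module (ZMod 2) V] (φ : V →ₗ[ZMod 2] V)
    (P : (ZMod 2)[X]) (x : V) : aeval φ P x = ∑ j ∈ P.support, φ^[j] x := by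
  conv_lhs => rw [P.as_sum_support_C_mul_X_pow]
  rw [map_sum, LinearMap.sum_apply]
  refine Finset.sum_congr rfl fun i hi => ?_
  have h3 : P.coeff i = 1 := by
    have h4 := mem_support_iff.1 hi
    revert h4
    generalize P.coeff i = t
    revert t
    decide
  rw [h3, C_1, one_mul, map_pow, aeval_X, Module.End.pow_apply]

end quot

section locsig

variable {k : Type} [NormedField k] [IsUltrametricDist k] {K M : Type} [Field K] [Field M]
  [Algebra K M] (L : IwasawaLog 2 k)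

theorem L_one : L.toFun 1 = 0 := by
  have h := L.map_mul 1 1
  rw [mul_one] at h
  exact left_eq_add.1 h

theorem L_inv (u : kˣ) : L.toFun u⁻¹ = - L.toFun u := by
  have h := L.map_mul u u⁻¹
  rw [mul_inv_cancel, L_one] at h
  exact (neg_eq_of_add_eq_zero_right h.symm).symm

theorem sigSmall_mul {T : Set (M →+* k)} {N : ℕ} {x y : Mˣ} (hx : SigSmall L T N x)
    (hy : SigSmall L T N y) : SigSmall L T N (x * y) := by
  intro τ hτ
  obtain ⟨h1, h2⟩ := hx τ hτ
  obtain ⟨h3, h4⟩ := hy τ hτ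
  refine ⟨by rw [Units.val_mul, map_mul, norm_mul, h1, h3, mul_one], ?_⟩
  rw [map_mul, L.map_mul]
  exact (IsUltrametricDist.norm_add_le_max _ _).trans (max_le h2 h4)

theorem sigSmall_inv {T : Set (M →+* k)} {N : ℕ} {x : Mˣ} (hx : SigSmall L T N x) :
    SigSmall L T N x⁻¹ := by
  intro τ hτ
  obtain ⟨h1, h2⟩ := hx τ hτ
  refine ⟨?_, ?_⟩
  · rw [Units.val_inv_eq_inv_val, map_inv₀, norm_inv, h1, inv_one]
  · rw [map_inv, L_inv, norm_neg]
    exact h2

theorem locSig_mul {T : Set (M →+* k)} {x y : Mˣ} (hx : LocSig L T x)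
    (hy : LocSig L T y) : LocSig L T (x * y) := by
  intro N
  obtain ⟨a, ha⟩ := hx N
  obtain ⟨b, hb⟩ := hy N
  refine ⟨a * b, ?_⟩
  have : x * y * (a * b) ^ 2 = (x * a ^ 2) * (y * b ^ 2) := by
    rw [mul_pow]; exact mul_mul_mul_comm _ _ _ _
  rw [this]
  exact sigSmall_mul L ha hb

theorem locSig_inv {T : Set (M →+* k)} {x : Mˣ} (hx : LocSig L T x) : LocSig L T x⁻¹ := by
  intro N
  obtain ⟨a, ha⟩ := hx N
  refine ⟨a⁻¹, ?_⟩
  have : x⁻¹ * a⁻¹ ^ 2 = (x * a ^ 2)⁻¹ := by
    rw [mul_inv, inv_pow]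
  rw [this]
  exact sigSmall_inv L ha

theorem locSig_one {T : Set (M →+* k)} : LocSig L T 1 := by
  intro N
  refine ⟨1, ?_⟩
  intro τ _
  rw [one_pow, mul_one, Units.val_one, map_one, norm_one, map_one, L_one, norm_zero]
  exact ⟨rfl, by positivity⟩

theorem locSig_div {T : Set (M →+* k)} {x y : Mˣ} (hx : LocSig L T x)
    (hy : LocSig L T y) : LocSig L T (x / y) := by
  rw [div_eq_mul_inv]
  exact locSig_mul L hx (locSig_inv L hy)

theorem locSig_delta (δ : M ≃ₐ[K] M) {T : Set (K →+* k)} {x : Mˣ}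
    (hx : LocSig L (above T : Set (M →+* k)) x) :
    LocSig L (above T : Set (M →+* k)) (Units.map ((δ : M →+* M) : M →* M) x) := by
  intro N
  obtain ⟨a, ha⟩ := hx N
  refine ⟨Units.map ((δ : M →+* M) : M →* M) a, ?_⟩
  intro τ hτ
  have hτ' : τ.comp (δ : M →+* M) ∈ (above T : Set (M →+* k)) := by
    have h1 : (τ.comp (δ : M →+* M)).comp (algebraMap K M) = τ.comp (algebraMap K M) := by
      ext y
      simp
    show (τ.comp (δ : M →+* M)).comp (algebraMap K M) ∈ T
    rw [h1]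
    exact hτ
  obtain ⟨h2, h3⟩ := ha _ hτ'
  rw [← map_pow, ← map_mul]
  exact ⟨h2, h3⟩

theorem locSig_pol (δ : M ≃ₐ[K] M) {T : Set (K →+* k)} (P : (ZMod 2)[X]) {x : Mˣ}
    (hx : LocSig L (above T : Set (M →+* k)) x) :
    LocSig L (above T : Set (M →+* k)) (pol P δ x) := by
  rw [pol_apply]
  have h1 : ∀ j : ℕ, LocSig L (above T : Set (M →+* k))
      ((Units.map ((δ : M →+* M) : M →* M))^[j] x) := by
    intro j
    induction j with
    | zero => exact hx
    | succ n ih =>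
      rw [Function.iterate_succ_apply']
      exact locSig_delta L δ ih
  refine Finset.prod_induction _ (fun y => LocSig L (above T : Set (M →+* k)) y)
    (fun a b ha hb => locSig_mul L ha hb) (locSig_one L) fun j _ => h1 j

end locsig

section perm

variable {K M : Type} [Field K] [NumberField K] [Field M] [NumberField M] [Algebra K M]

/-- the permutation `w ↦ δ⁻¹ w` of a stable set of primes -/
theorem exists_perm (δ : M ≃ₐ[K] M) (S : Set (HeightOneSpectrum (𝓞 M)))
    (hS : ∀ w ∈ S, ∀ v, ConjP K v w → v ∈ S) :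
    ∃ σ : Equiv.Perm S, ∀ (w : S) (j : ℕ) (y : M), (w : HeightOneSpectrum (𝓞 M)).valuation M
      ((δ ^ j) y) = ((σ ^ j) w : HeightOneSpectrum (𝓞 M)).valuation M y := by
  have hmem : ∀ (δ : M ≃ₐ[K] M), ∀ w ∈ S, pr δ w ∈ S := by
    intro δ w hw
    refine hS w hw _ ⟨δ⁻¹, fun y => ?_⟩
    rw [← pr_val]
    have : δ (δ⁻¹ y) = y := AlgEquiv.apply_symm_apply δ y
    rw [this]
  have hinv : ∀ (δ : M ≃ₐ[K] M) (w : HeightOneSpectrum (𝓞 M)), pr δ⁻¹ (pr δ w) = w := by
    intro δ w
    refine val_inj fun y => ?_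
    rw [← pr_val, ← pr_val]
    have : δ (δ⁻¹ y) = y := AlgEquiv.apply_symm_apply δ y
    rw [this]
  let σ : Equiv.Perm S :=
    { toFun := fun w => ⟨pr δ w, hmem δ w w.2⟩
      invFun := fun w => ⟨pr δ⁻¹ w, hmem δ⁻¹ w w.2⟩
      left_inv := fun w => Subtype.ext (hinv δ w)
      right_inv := fun w => Subtype.ext (by
        have := hinv δ⁻¹ w
        rwa [inv_inv] at this) }
  refine ⟨σ, fun w j => ?_⟩
  induction j with
  | zero => intro y; simp
  | succ n ih =>
    intro y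
    have h1 : (σ ^ (n + 1)) w = σ ((σ ^ n) w) := by rw [pow_succ']; rfl
    have h2 : (δ ^ (n + 1)) y = (δ ^ n) (δ y) := by rw [pow_succ]; rfl
    rw [h1, h2, ih]
    exact pr_val δ _ y

end perm

theorem s_lob (h1 : S_SUB) (h2 : S_BIN) (h3 : S_SIG) (h4 : S_PRM) (h5 : S_VAL) : S_LOB := by
  intro k _ _ _ _ hk L K M _ _ _ _ _ _ m s₀ δ ζ Φ P hPhi hord hfin T hT a ha0 ha S hS hfree
  classical
  obtain ⟨F₁, hF₁c, hF₁n, hF₁s, hF₁d⟩ := h3 k hk L K M m δ ζ Φ P hPhi hord hfin T hT
  obtain ⟨v, v_mul, v_zero, v_delta, v_presc, v_appr⟩ := h5 k K M δ T a ha0 ha S hS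
  obtain ⟨G, hG, hGsq, hGδ⟩ := h1 k L K M δ T (a : K) S hS
  obtain ⟨σ, hσ⟩ := exists_perm δ S hS.stable
  have hδm : δ ^ m = 1 := by rw [← hord]; exact pow_orderOf_eq_one δ
  have hσm : σ ^ m = 1 := by
    ext w
    have : ((σ ^ m) w : S) = w := Subtype.ext (val_inj fun y => by rw [← hσ, hδm]; rfl)
    rw [this]
    rfl
  haveI : Finite S := hS.fin.to_subtype
  have hcard : m * s₀ ≤ {y : S | ∀ i, 0 < i → i < m → (σ ^ i) y ≠ y}.ncard := by
    rw [← hfree]
    have hsub : {w ∈ S | FreeP K w} ⊆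
        Subtype.val '' {y : S | ∀ i, 0 < i → i < m → (σ ^ i) y ≠ y} := by
      rintro w ⟨hw, hf⟩
      refine ⟨⟨w, hw⟩, ?_, rfl⟩
      intro i hi him hcon
      have h6 : δ ^ i = 1 := by
        refine hf _ fun y => ?_
        rw [hσ ⟨w, hw⟩ i y, hcon]
      have h7 := orderOf_dvd_of_pow_eq_one h6
      rw [hord] at h7
      exact absurd (Nat.le_of_dvd hi h7) (by omega)
    refine (Set.ncard_le_ncard hsub (Set.toFinite _)).trans (le_of_eq ?_)
    exact Set.ncard_image_of_injective _ Subtype.val_injective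
  obtain ⟨F₂, hF₂c, hF₂⟩ := h4 k m ζ Φ P hPhi S σ s₀ hσm hcard
  -- the polynomial `e`
  obtain ⟨Q, hQ⟩ := hPhi.dvdP
  have hcopr : IsCoprime P Q := by
    refine Separable.isCoprime ?_
    rw [← hQ]
    have h1 : ((m : ℕ) : ZMod 2) ≠ 0 := by
      intro h
      have := (ZMod.natCast_eq_zero_iff_even).1 h
      exact (Nat.not_even_iff_odd.2 hPhi.odd) this
    have := separable_X_pow_sub_C (1 : ZMod 2) h1 one_ne_zero
    rwa [C_1] at this
  obtain ⟨A, B, hAB⟩ := hcopr
  let e : (ZMod 2)[X] := B * Q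
  have he1 : e = 1 - A * P := by rw [← hAB]; simp only [e]; ring
  have hePm : P * e = B * (X ^ m - 1) := by rw [hQ]; simp only [e]; ring
  -- `v` and the operators
  have v_one : ∀ w ∈ S, v 1 w = 0 := by
    intro w hw
    have h := v_mul 1 1 w hw
    rw [mul_one] at h
    exact left_eq_add.1 h
  have v_inv : ∀ x, ∀ w ∈ S, v x⁻¹ w = - v x w := by
    intro x w hw
    have h := v_mul x x⁻¹ w hw
    rw [mul_inv_cancel, v_one w hw] at h
    exact (neg_eq_of_add_eq_zero_right h.symm).symm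
  let φ : Mˣ →* Mˣ := Units.map ((δ : M →+* M) : M →* M)
  have v_iter : ∀ (j : ℕ) (x : Mˣ) (w : S), v (φ^[j] x) w = v x ((σ ^ j) w : S) := by
    intro j
    induction j with
    | zero => intro x w; simp
    | succ n ih =>
      intro x w
      rw [Function.iterate_succ_apply']
      have h6 := v_delta (φ^[n] x) w w.2 (σ w : S) (fun y => by
        have := hσ w 1 y
        simpa using this)
      show v (Units.map ((δ : M →+* M) : M →* M) (φ^[n] x)) w = _
      rw [h6, ih]
      rfl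
  have v_prod : ∀ (s : Finset ℕ) (f : ℕ → Mˣ) (w : S), v (∏ j ∈ s, f j) w = ∑ j ∈ s, v (f j) w := by
    intro s f w
    induction s using Finset.induction_on with
    | empty => simp [v_one w w.2]
    | insert j s hj ih => rw [Finset.prod_insert hj, Finset.sum_insert hj, v_mul _ _ _ w.2, ih]
  have v_pol : ∀ (A : (ZMod 2)[X]) (x : Mˣ) (w : S),
      v (pol A δ x) w = ∑ j ∈ A.support, v x ((σ ^ j) w : S) := by
    intro A x w
    rw [pol_apply, v_prod]
    exact Finset.sum_congr rfl fun j _ => v_iter j x w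
  let fl : (S → ZMod 2) →ₗ[ZMod 2] (S → ZMod 2) := LinearMap.funLeft (ZMod 2) (ZMod 2) σ
  have fl_iter : ∀ (j : ℕ) (c : S → ZMod 2) (w : S), fl^[j] c w = c ((σ ^ j) w) := by
    intro j
    induction j with
    | zero => intro c w; simp
    | succ n ih =>
      intro c w
      rw [Function.iterate_succ_apply']
      show (fl^[n] c) (σ w) = _
      rw [ih]
      rfl
  have fl_aeval : ∀ (A : (ZMod 2)[X]) (c : S → ZMod 2) (w : S),
      (aeval fl A c) w = ∑ j ∈ A.support, c ((σ ^ j) w) := by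
    intro A c w
    rw [aeval_lin, Finset.sum_apply]
    exact Finset.sum_congr rfl fun j _ => fl_iter j c w
  have he_c : ∀ c ∈ F₂, ∀ w : S, ∑ j ∈ e.support, c ((σ ^ j) w) = c w := by
    intro c hc w
    rw [← fl_aeval, he1, map_sub, map_mul, map_one, LinearMap.sub_apply, Module.End.mul_apply]
    have h0 : aeval fl P c = 0 := by
      funext w
      rw [fl_aeval, hF₂ c hc w]
      rfl
    rw [h0, map_zero, sub_zero, Module.End.one_apply]
  -- the elements
  have hY : ∀ c : S → ZMod 2, ∃ y : Mˣ, ∀ w : S, v y w = c w := by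
    intro c
    obtain ⟨y, hy⟩ := v_presc (fun w => if h : w ∈ S then c ⟨w, h⟩ else 0)
    refine ⟨y, fun w => ?_⟩
    rw [hy w w.2, dif_pos w.2]
  choose Y hY using hY
  have hX : ∀ x : Mˣ, ∃ x' : Mˣ, x ∈ F₁ → (∀ w ∈ S, v x' w = 0) ∧
      ∀ τ ∈ (above T : Set (M →+* k)), ‖τ ((x' / x : Mˣ) : M) - 1‖ ≤ 1 / 8 := by
    intro x
    by_cases hx : x ∈ F₁
    · obtain ⟨x', hx'⟩ := v_appr x (hF₁n x hx)
      exact ⟨x', fun _ => hx'⟩
    · exact ⟨1, fun h => absurd h hx⟩
  choose X' hX' using hX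
  let f : Mˣ × (S → ZMod 2) → Mˣ := fun p => X' p.1 * pol e δ (Y p.2)
  -- membership in `G` from `v = 0`
  have hGof : ∀ x : Mˣ, (∀ w : S, v x w = 0) → LocSig L (above T : Set (M →+* k)) x → x ∈ G := by
    intro x hx hs
    rw [hG]
    refine ⟨?_, ?_, hs⟩
    · intro w hw hev
      have h6 := (v_zero x w hw).1 (hx ⟨w, hw⟩)
      rwa [if_pos hev] at h6
    · intro w hw hev
      have h6 := (v_zero x w hw).1 (hx ⟨w, hw⟩)
      rwa [if_neg hev] at h6
  have hGv : ∀ x ∈ G, ∀ w : S, v x w = 0 := by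
    intro x hx w
    rw [v_zero x w w.2]
    have h6 := (hG x).1 hx
    split_ifs with hev
    · exact h6.even w w.2 hev
    · exact h6.tame w w.2 hev
  have hsq : ∀ y : Mˣ, Sq (pol P δ (pol e δ y)) := by
    intro y
    obtain ⟨V, _, _, φ', q, hq1, hq2⟩ := quot_mod δ
    rw [← hq1]
    have hq3 : ∀ (j : ℕ) (x : Mˣ), (q (φ^[j] x)).toAdd = φ'^[j] (q x).toAdd := by
      intro j
      induction j with
      | zero => intro x; rfl
      | succ n ih =>
        intro x
        rw [Function.iterate_succ_apply', Function.iterate_succ_apply', ← ih]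
        exact hq2 _
    have hq4 : ∀ (A : (ZMod 2)[X]) (x : Mˣ), (q (pol A δ x)).toAdd = aeval φ' A (q x).toAdd := by
      intro A x
      rw [pol_apply, map_prod, toAdd_prod, aeval_lin]
      exact Finset.sum_congr rfl fun j _ => hq3 j x
    have hkey : aeval φ' (X ^ m - 1 : (ZMod 2)[X]) (q y).toAdd = 0 := by
      rw [map_sub, map_pow, aeval_X, map_one, LinearMap.sub_apply, Module.End.pow_apply, ← hq3,
        Module.End.one_apply]
      have h8 : φ^[m] y = y := by
        have h9 : ∀ j : ℕ, φ^[j] y = Units.map (((δ ^ j : M ≃ₐ[K] M) : M →+* M) : M →* M) y := by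
          intro j
          induction j with
          | zero => ext; simp
          | succ n ih =>
            rw [Function.iterate_succ_apply', ih]
            ext
            simp [φ, pow_succ']
        rw [h9, hδm]
        ext
        simp
      rw [h8, sub_self]
    have h10 : (q (pol P δ (pol e δ y))).toAdd = 0 := by
      rw [hq4, hq4, ← Module.End.mul_apply, ← map_mul, hePm, map_mul, Module.End.mul_apply, hkey,
        map_zero]
    exact h10
  have hmemG : ∀ p ∈ F₁ ×ˢ F₂, pol P δ (f p) ∈ G := by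
    rintro ⟨x, c⟩ hp
    obtain ⟨hx, hc⟩ := Finset.mem_product.1 hp
    simp only at hx hc
    simp only [f]
    rw [map_mul]
    refine G.mul_mem ?_ (hGsq _ (hsq _))
    obtain ⟨hx1, hx2⟩ := hX' x hx
    refine hGof _ ?_ ?_
    · intro w
      rw [v_pol]
      exact Finset.sum_eq_zero fun j _ => hx1 _ ((σ ^ j) w).2
    · have h6 : LocSig L (above T : Set (M →+* k)) (X' x / x) := h2 k L M _ _ hx2
      have h7 := locSig_pol L δ P h6
      have h8 := locSig_mul L (hF₁s x hx) h7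
      rwa [← map_mul, mul_div_cancel] at h8
  have hpair : ∀ p ∈ F₁ ×ˢ F₂, ∀ p' ∈ F₁ ×ˢ F₂, f p / f p' ∈ G → p = p' := by
    rintro ⟨x, c⟩ hp ⟨x1, c1⟩ hp' hdiv
    obtain ⟨hx, hc⟩ := Finset.mem_product.1 hp
    obtain ⟨hx1, hc1⟩ := Finset.mem_product.1 hp'
    simp only at hx hc hx1 hc1
    have hv := hGv _ hdiv
    have hcc : c = c1 := by
      funext w
      have h6 := hv w
      simp only [f] at h6
      rw [div_eq_mul_inv, v_mul _ _ _ w.2, v_inv _ _ w.2, v_mul _ _ _ w.2, v_mul _ _ _ w.2,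
        (hX' x hx).1 w w.2, (hX' x1 hx1).1 w w.2, v_pol, v_pol, zero_add, zero_add] at h6
      simp only [hY] at h6
      rw [he_c c hc, he_c c1 hc1] at h6
      exact sub_eq_zero.1 (by rw [sub_eq_add_neg]; exact h6)
    subst hcc
    have h7 : f (x, c) / f (x1, c) = X' x / X' x1 := by
      simp only [f]
      exact mul_div_mul_right_eq_div _ _ _
    rw [h7] at hdiv
    have h8 := ((hG _).1 hdiv).sig
    have h9 : LocSig L (above T : Set (M →+* k)) (X' x / x) := h2 k L M _ _ (hX' x hx).2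
    have h10 : LocSig L (above T : Set (M →+* k)) (X' x1 / x1) := h2 k L M _ _ (hX' x1 hx1).2
    have h11 := locSig_mul L (locSig_div L h8 h9) h10
    have h12 : X' x / X' x1 / (X' x / x) * (X' x1 / x1) = x / x1 := by
      rw [div_div_div_cancel_left, div_mul_div_cancel]
    rw [h12] at h11
    by_contra hne
    exact hF₁d x hx x1 hx1 (fun h => hne (by rw [h])) h11
  refine ⟨(F₁ ×ˢ F₂).image f, ?_, ?_, ?_⟩
  · rw [Finset.card_image_of_injOn, Finset.card_product, hF₁c, hF₂c, mul_add, pow_add]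
    intro p hp p' hp' h
    refine hpair p (Finset.mem_coe.1 hp) p' (Finset.mem_coe.1 hp') ?_
    rw [h, div_self']
    exact G.one_mem
  · intro x hx
    obtain ⟨p, hp, rfl⟩ := Finset.mem_image.1 hx
    exact (hG _).1 (hmemG p hp)
  · intro x hx y hy hxy hcon
    obtain ⟨p, hp, rfl⟩ := Finset.mem_image.1 hx
    obtain ⟨p', hp', rfl⟩ := Finset.mem_image.1 hy
    exact hxy (by rw [hpair p hp p' hp' ((hG _).2 hcon)])

end Pool.Agent.Helper32.RS
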