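import Mathlib
import Pool.Agent.Helper38.RS.Goals2

/-!
# RS-LAT: the `P`-part of a lattice modulo 2
-/

set_option autoImplicit false

namespace Pool.Agent.Helper32.RS

open Polynomial Module Pool.Agent.Helper38.RS

theorem dvd_of_map_zero (F : ℤ_[2][X]) (h : F.map (PadicInt.toZMod : ℤ_[2] →+* ZMod 2) = 0) :
    ∃ C' : ℤ_[2][X], F = C (2 : ℤ_[2]) * C' := by
  have h1 : C (2 : ℤ_[2]) ∣ F := by
    rw [C_dvd_iff_dvd_coeff]
    intro i
    have h2 : PadicInt.toZMod (F.coeff i) = (0 : ZMod 2) := by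
      rw [← coeff_map, h, coeff_zero]
    have h3 : F.coeff i ∈ RingHom.ker (PadicInt.toZMod : ℤ_[2] →+* ZMod 2) := h2
    rw [PadicInt.ker_toZMod, PadicInt.maximalIdeal_eq_span_p, Ideal.mem_span_singleton] at h3
    exact_mod_cast h3
  exact h1

theorem cop_lift (F G : ℤ_[2][X])
    (h : IsCoprime (F.map (PadicInt.toZMod : ℤ_[2] →+* ZMod 2))
      (G.map (PadicInt.toZMod : ℤ_[2] →+* ZMod 2))) :
    ∃ A B C', A * F + B * G = 1 + C (2 : ℤ_[2]) * C' := by
  obtain ⟨a, b, hab⟩ := h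
  obtain ⟨A, rfl⟩ := Polynomial.map_surjective _
    (ZMod.ringHom_surjective (PadicInt.toZMod : ℤ_[2] →+* ZMod 2)) a
  obtain ⟨B, rfl⟩ := Polynomial.map_surjective _
    (ZMod.ringHom_surjective (PadicInt.toZMod : ℤ_[2] →+* ZMod 2)) b
  obtain ⟨C', hC⟩ := dvd_of_map_zero (A * F + B * G - 1) (by
    rw [Polynomial.map_sub, Polynomial.map_add, Polynomial.map_mul, Polynomial.map_mul, hab,
      Polynomial.map_one, sub_self])
  exact ⟨A, B, C', by rw [← hC]; ring⟩

section lat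

variable {Λ : Type} [AddCommGroup Λ] [Module ℤ_[2] Λ] (D : Λ →ₗ[ℤ_[2]] Λ)

/-- the submodule generated over `ℤ_2[D]` by a finite set -/
noncomputable def Gs (Z : Finset Λ) : Submodule ℤ_[2] Λ :=
  Submodule.span ℤ_[2] {y | ∃ z ∈ Z, ∃ i : ℕ, y = (D ^ i) z}

theorem Gs_stable (Z : Finset Λ) (G : ℤ_[2][X]) (x : Λ) (hx : x ∈ Gs D Z) :
    aeval D G x ∈ Gs D Z := by
  have hD : ∀ x ∈ Gs D Z, D x ∈ Gs D Z := by
    intro x hx
    unfold Gs at hx
    induction hx using Submodule.span_induction with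
    | mem y hy =>
      obtain ⟨z, hz, i, rfl⟩ := hy
      refine Submodule.subset_span ⟨z, hz, i + 1, ?_⟩
      rw [pow_succ']
      rfl
    | zero => rw [map_zero]; exact Submodule.zero_mem _
    | add y z _ _ hy hz => rw [map_add]; exact Submodule.add_mem _ hy hz
    | smul c y _ hy => rw [map_smul]; exact Submodule.smul_mem _ _ hy
  induction G using Polynomial.induction_on with
  | C a =>
    rw [aeval_C, Module.algebraMap_end_apply]
    exact Submodule.smul_mem _ _ hx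
  | add p q hp hq =>
    rw [map_add]
    exact Submodule.add_mem _ hp hq
  | monomial n a ih =>
    have e : C a * X ^ (n + 1) = X * (C a * X ^ n) := by ring
    rw [e, map_mul, aeval_X]
    exact hD _ ih

theorem Gs_mono {Z Z' : Finset Λ} (h : Z ⊆ Z') : Gs D Z ≤ Gs D Z' := by
  refine Submodule.span_mono ?_
  rintro y ⟨z, hz, i, rfl⟩
  exact ⟨z, h hz, i, rfl⟩

theorem mem_Gs (Z : Finset Λ) (z : Λ) (hz : z ∈ Z) : z ∈ Gs D Z :=
  Submodule.subset_span ⟨z, hz, 0, by simp⟩

/-- `2 Λ'` as a submodule -/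
theorem exists_min (N : Submodule ℤ_[2] Λ) (hN : N.FG) :
    ∃ Z : Finset Λ, (∀ z ∈ Z, z ∈ N) ∧ N ≤ Gs D Z ⊔ (Ideal.span {(2 : ℤ_[2])}) • N ∧
      ∀ Z' : Finset Λ, (∀ z ∈ Z', z ∈ N) → N ≤ Gs D Z' ⊔ (Ideal.span {(2 : ℤ_[2])}) • N →
        Z.card ≤ Z'.card := by
  classical
  have hex : ∃ n, ∃ Z : Finset Λ, Z.card = n ∧ (∀ z ∈ Z, z ∈ N) ∧
      N ≤ Gs D Z ⊔ (Ideal.span {(2 : ℤ_[2])}) • N := by
    obtain ⟨S, hS⟩ := hN
    refine ⟨_, S, rfl, fun z hz => hS ▸ Submodule.subset_span hz, ?_⟩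
    refine le_trans ?_ le_sup_left
    rw [← hS]
    exact Submodule.span_le.2 fun z hz => mem_Gs D S z hz
  obtain ⟨Z, hZ, h1, h2⟩ := Nat.find_spec hex
  refine ⟨Z, h1, h2, fun Z' h1' h2' => ?_⟩
  rw [hZ]
  exact Nat.find_min' hex ⟨Z', rfl, h1', h2'⟩

theorem mem_two {N : Submodule ℤ_[2] Λ} {x : Λ} :
    x ∈ (Ideal.span {(2 : ℤ_[2])}) • N ↔ ∃ v ∈ N, x = (2 : ℤ_[2]) • v := by
  rw [Submodule.ideal_span_singleton_smul, Submodule.mem_smul_pointwise_iff_exists]
  constructor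
  · rintro ⟨v, hv, rfl⟩
    exact ⟨v, hv, rfl⟩
  · rintro ⟨v, hv, rfl⟩
    exact ⟨v, hv, rfl⟩

theorem two_stable {N : Submodule ℤ_[2] Λ} (hst : ∀ (G : ℤ_[2][X]), ∀ x ∈ N, aeval D G x ∈ N)
    (G : ℤ_[2][X]) (x : Λ) (hx : x ∈ (Ideal.span {(2 : ℤ_[2])}) • N) :
    aeval D G x ∈ (Ideal.span {(2 : ℤ_[2])}) • N := by
  obtain ⟨v, hv, rfl⟩ := mem_two.1 hx
  exact mem_two.2 ⟨aeval D G v, hst G v hv, by rw [map_smul]⟩

theorem inj (N : Submodule ℤ_[2] Λ) (hst : ∀ (G : ℤ_[2][X]), ∀ x ∈ N, aeval D G x ∈ N)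
    (Φ : ℤ_[2][X]) (hΦ : ∀ x ∈ N, aeval D Φ x = 0)
    (sat : ∀ x ∈ N, (∃ u, x = (2 : ℤ_[2]) • u) → x ∈ (Ideal.span {(2 : ℤ_[2])}) • N)
    (P : (ZMod 2)[X]) (hP : P = Φ.map PadicInt.toZMod) (irr : Irreducible P)
    (Z : Finset Λ) (hZN : ∀ z ∈ Z, z ∈ N)
    (hgen : N ≤ Gs D Z ⊔ (Ideal.span {(2 : ℤ_[2])}) • N)
    (hmin : ∀ Z' : Finset Λ, (∀ z ∈ Z', z ∈ N) →
      N ≤ Gs D Z' ⊔ (Ideal.span {(2 : ℤ_[2])}) • N → Z.card ≤ Z'.card)
    (A B : Finset (Λ × ℕ)) (hA : A ⊆ Z ×ˢ Finset.range P.natDegree)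
    (hB : B ⊆ Z ×ˢ Finset.range P.natDegree)
    (h : ∃ b, ∑ p ∈ A, (D ^ p.2) p.1 = ∑ p ∈ B, (D ^ p.2) p.1 + (2 : ℤ_[2]) • b) : A = B := by
  classical
  by_contra hAB
  obtain ⟨z0, i0, hd⟩ : ∃ z0 i0, ¬ ((z0, i0) ∈ A ↔ (z0, i0) ∈ B) := by
    by_contra hcon
    push Not at hcon
    exact hAB (Finset.ext fun ⟨z, i⟩ => hcon z i)
  have hmem : (z0, i0) ∈ Z ×ˢ Finset.range P.natDegree := by
    by_cases h1 : (z0, i0) ∈ A
    · exact hA h1
    · by_cases h2 : (z0, i0) ∈ B
      · exact hB h2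
      · exact absurd (iff_of_false h1 h2) hd
  obtain ⟨hz0, hi0⟩ := Finset.mem_product.1 hmem
  simp only at hz0 hi0
  -- the polynomials
  let ind : Finset (Λ × ℕ) → Λ → ℕ → ℤ_[2] := fun A z i => if (z, i) ∈ A then 1 else 0
  let G : Λ → ℤ_[2][X] := fun z =>
    ∑ i ∈ Finset.range P.natDegree, C (ind A z i - ind B z i) * X ^ i
  have hsum : ∀ A : Finset (Λ × ℕ), A ⊆ Z ×ˢ Finset.range P.natDegree →
      ∑ p ∈ A, (D ^ p.2) p.1 =
        ∑ z ∈ Z, ∑ i ∈ Finset.range P.natDegree, ind A z i • (D ^ i) z := by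
    intro A hA
    rw [← Finset.sum_product', ← Finset.sum_subset hA]
    · refine Finset.sum_congr rfl fun p hp => ?_
      simp only [ind]
      rw [if_pos hp, one_smul]
    · intro p _ hp
      simp only [ind]
      rw [if_neg hp, zero_smul]
  have hdiff : ∑ p ∈ A, (D ^ p.2) p.1 - ∑ p ∈ B, (D ^ p.2) p.1 = ∑ z ∈ Z, aeval D (G z) z := by
    rw [hsum A hA, hsum B hB, ← Finset.sum_sub_distrib]
    refine Finset.sum_congr rfl fun z _ => ?_
    rw [← Finset.sum_sub_distrib]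
    simp only [G, map_sum, map_mul, map_pow, aeval_X, aeval_C, LinearMap.sum_apply]
    refine Finset.sum_congr rfl fun i _ => ?_
    rw [Module.End.mul_apply, Module.algebraMap_end_apply, sub_smul]
  obtain ⟨b, hb⟩ := h
  have hb' : ∑ z ∈ Z, aeval D (G z) z = (2 : ℤ_[2]) • b := by
    rw [← hdiff, hb]
    abel
  have hcoef : ∀ i ∈ Finset.range P.natDegree, (G z0).coeff i = ind A z0 i - ind B z0 i := by
    intro i hi
    simp only [G, finset_sum_coeff, coeff_C_mul, coeff_X_pow]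
    rw [Finset.sum_eq_single i]
    · simp
    · intro j _ hj
      rw [if_neg (Ne.symm hj), mul_zero]
    · intro h
      exact absurd hi h
  have hG0 : (G z0).map (PadicInt.toZMod : ℤ_[2] →+* ZMod 2) ≠ 0 := by
    intro h0
    have h1 := congrArg (fun F => F.coeff i0) h0
    simp only [coeff_map, coeff_zero] at h1
    rw [hcoef i0 hi0] at h1
    simp only [ind] at h1
    by_cases h2 : (z0, i0) ∈ A
    · by_cases h3 : (z0, i0) ∈ B
      · exact hd (iff_of_true h2 h3)
      · rw [if_pos h2, if_neg h3, sub_zero, map_one] at h1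
        exact one_ne_zero h1
    · by_cases h3 : (z0, i0) ∈ B
      · rw [if_neg h2, if_pos h3, zero_sub, map_neg, map_one, neg_eq_zero] at h1
        exact one_ne_zero h1
      · exact hd (iff_of_false h2 h3)
  have hPpos : 0 < P.natDegree := lt_of_le_of_lt (Nat.zero_le _) (Finset.mem_range.1 hi0)
  have hdeg : ((G z0).map (PadicInt.toZMod : ℤ_[2] →+* ZMod 2)).degree < P.degree := by
    refine lt_of_le_of_lt degree_map_le ?_
    rw [degree_eq_natDegree irr.ne_zero]
    refine lt_of_le_of_lt (degree_sum_le _ _) ?_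
    rw [Finset.sup_lt_iff (by exact_mod_cast WithBot.bot_lt_coe _)]
    intro i hi
    refine lt_of_le_of_lt (degree_C_mul_X_pow_le _ _) ?_
    exact_mod_cast Finset.mem_range.1 hi
  have hcop : IsCoprime ((G z0).map (PadicInt.toZMod : ℤ_[2] →+* ZMod 2))
      (Φ.map (PadicInt.toZMod : ℤ_[2] →+* ZMod 2)) := by
    rw [← hP]
    exact ((irr.coprime_iff_not_dvd).2 (not_dvd_of_degree_lt hG0 hdeg)).symm
  obtain ⟨a, b', c, habc⟩ := cop_lift _ _ hcop
  set W : Submodule ℤ_[2] Λ := Gs D (Z.erase z0) ⊔ (Ideal.span {(2 : ℤ_[2])}) • N with hW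
  have hWst : ∀ (F : ℤ_[2][X]) (x : Λ), x ∈ W → aeval D F x ∈ W := by
    intro F x hx
    obtain ⟨y, hy, t, ht, rfl⟩ := Submodule.mem_sup.1 hx
    rw [map_add]
    exact Submodule.add_mem _ (Submodule.mem_sup_left (Gs_stable D _ F y hy))
      (Submodule.mem_sup_right (two_stable D hst F t ht))
  have hw : aeval D (G z0) z0 ∈ W := by
    have h1 : aeval D (G z0) z0 = (2 : ℤ_[2]) • b - ∑ z ∈ Z.erase z0, aeval D (G z) z := by
      rw [← hb', ← Finset.add_sum_erase Z _ hz0]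
      abel
    rw [h1]
    refine Submodule.sub_mem _ (Submodule.mem_sup_right (sat _ ?_ ⟨b, rfl⟩))
      (Submodule.mem_sup_left ?_)
    · rw [← hb']
      exact Submodule.sum_mem _ fun z hz => hst _ z (hZN z hz)
    · refine Submodule.sum_mem _ fun z hz => ?_
      exact Gs_stable D _ _ z (mem_Gs D _ z hz)
  have hz0W : z0 ∈ W := by
    have h1 := congrArg (fun F => aeval D F z0) habc
    simp only [map_add, map_mul, map_one, LinearMap.add_apply, Module.End.mul_apply,
      Module.End.one_apply, aeval_C, Module.algebraMap_end_apply] at h1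
    rw [hΦ z0 (hZN z0 hz0), map_zero, add_zero] at h1
    have h2 : z0 = aeval D a (aeval D (G z0) z0) - (2 : ℤ_[2]) • aeval D c z0 := by
      rw [h1]
      abel
    rw [h2]
    refine Submodule.sub_mem _ (hWst a _ hw) (Submodule.mem_sup_right ?_)
    exact mem_two.2 ⟨_, hst c z0 (hZN z0 hz0), rfl⟩
  have hGs : Gs D Z ≤ W := by
    refine Submodule.span_le.2 ?_
    rintro y ⟨z, hz, i, rfl⟩
    by_cases hzz : z = z0
    · subst hzz
      have := hWst (X ^ i) z hz0W
      rwa [map_pow, aeval_X] at this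
    · refine Submodule.mem_sup_left (Submodule.subset_span ⟨z, ?_, i, rfl⟩)
      exact Finset.mem_erase.2 ⟨hzz, hz⟩
  have hfin := hmin (Z.erase z0) (fun z hz => hZN z (Finset.mem_of_mem_erase hz))
    (hgen.trans (sup_le hGs le_sup_right))
  rw [Finset.card_erase_of_mem hz0] at hfin
  have := Finset.card_pos.2 ⟨z0, hz0⟩
  omega

theorem dimbd (k : Type) [NormedField k] (ρ : ℤ_[2] →+* k) (m : ℕ) (ζ : k)
    (hmk : (m : k) ≠ 0) (hζ0 : ζ ≠ 0) (hζm : ζ ^ m = 1)
    (Ψ : ℤ_[2][X]) (hΨ : eval₂ ρ ζ Ψ ≠ 0)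
    (hDm : ∀ x, (D ^ m) x = x) (V : Type) [AddCommGroup V] [Module k V] [FiniteDimensional k V]
    (D' : V →ₗ[k] V) (j : Λ →+ V) (hj1 : ∀ x, j (D x) = D' (j x))
    (hj2 : ∀ (c : ℤ_[2]) (x : Λ), j (c • x) = ρ c • j x)
    (hspan : Submodule.span k (Set.range j) = ⊤) (Z : Finset Λ)
    (hgen : ∀ x, aeval D Ψ x ∈ Gs D Z) :
    finrank k (LinearMap.ker (D' - ζ • LinearMap.id)) ≤ Z.card := by
  classical
  have hjpow : ∀ (i : ℕ) (x : Λ), j ((D ^ i) x) = (D' ^ i) (j x) := by
    intro i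
    induction i with
    | zero => intro x; simp
    | succ n ih =>
      intro x
      rw [pow_succ', pow_succ', Module.End.mul_apply, Module.End.mul_apply, hj1, ih]
  have hD'm : D' ^ m = 1 := by
    refine LinearMap.ext_on hspan ?_
    rintro _ ⟨x, rfl⟩
    rw [← hjpow, hDm, Module.End.one_apply]
  let c0 : Module.End k V := ζ • 1
  have hc0 : Commute (D' : Module.End k V) c0 := by
    show D' * (ζ • 1) = (ζ • 1) * D'
    rw [mul_smul_comm, smul_mul_assoc, mul_one, one_mul]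
  let π : Module.End k V := ∑ i ∈ Finset.range m, D' ^ i * c0 ^ (m - 1 - i)
  have hπ0 : π * (D' - c0) = 0 := by
    simp only [π]
    rw [hc0.geom_sum₂_mul, hD'm]
    simp only [c0]
    rw [_root_.smul_pow, one_pow, hζm, one_smul, sub_self]
  have hπD : ∀ v, π (D' v) = ζ • π v := by
    intro v
    have h1 := congrArg (fun f : Module.End k V => f v) hπ0
    simp only [Module.End.mul_apply, LinearMap.zero_apply, LinearMap.sub_apply, map_sub] at h1
    have h2 : c0 v = ζ • v := by simp [c0]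
    rw [h2, map_smul] at h1
    exact sub_eq_zero.1 h1
  have hπk : ∀ v, D' v = ζ • v → π v = ((m : k) * ζ ^ (m - 1)) • v := by
    intro v hv
    have hp : ∀ i : ℕ, (D' ^ i) v = ζ ^ i • v := by
      intro i
      induction i with
      | zero => simp
      | succ n ih =>
        rw [pow_succ', Module.End.mul_apply, ih, map_smul, hv, smul_smul, pow_succ]
    simp only [π, LinearMap.sum_apply, Module.End.mul_apply]
    have h3 : ∀ i ∈ Finset.range m, (D' ^ i) ((c0 ^ (m - 1 - i)) v) = ζ ^ (m - 1) • v := by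
      intro i hi
      simp only [c0]
      rw [_root_.smul_pow, one_pow, LinearMap.smul_apply, Module.End.one_apply, map_smul, hp, smul_smul,
        ← pow_add]
      congr 2
      have := Finset.mem_range.1 hi
      omega
    rw [Finset.sum_congr rfl h3, Finset.sum_const, Finset.card_range, mul_smul, Nat.cast_smul_eq_nsmul]
  let S : Submodule k V := Submodule.span k ((Z.image fun z => π (j z) : Finset V) : Set V)
  have c1 : ∀ y ∈ Gs D Z, π (j y) ∈ S := by
    intro y hy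
    unfold Gs at hy
    induction hy using Submodule.span_induction with
    | mem y hy =>
      obtain ⟨z, hz, i, rfl⟩ := hy
      have h4 : ∀ i : ℕ, π ((D' ^ i) (j z)) = ζ ^ i • π (j z) := by
        intro i
        induction i with
        | zero => simp
        | succ n ih =>
          rw [pow_succ', Module.End.mul_apply, hπD, ih, smul_smul, pow_succ']
      rw [hjpow, h4]
      refine Submodule.smul_mem _ _ (Submodule.subset_span ?_)
      exact Finset.mem_coe.2 (Finset.mem_image_of_mem _ hz)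
    | zero => rw [map_zero, map_zero]; exact Submodule.zero_mem _
    | add y z _ _ hy hz => rw [map_add, map_add]; exact Submodule.add_mem _ hy hz
    | smul c y _ hy => rw [hj2, map_smul]; exact Submodule.smul_mem _ _ hy
  have c2 : ∀ (G : ℤ_[2][X]) (x : Λ), π (j (aeval D G x)) = eval₂ ρ ζ G • π (j x) := by
    intro G
    induction G using Polynomial.induction_on with
    | C a =>
      intro x
      rw [aeval_C, Module.algebraMap_end_apply, hj2, map_smul, eval₂_C]
    | add p q hp hq =>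
      intro x
      rw [map_add, LinearMap.add_apply, map_add, map_add, hp, hq, eval₂_add, add_smul]
    | monomial n a ih =>
      intro x
      have e : C a * X ^ (n + 1) = X * (C a * X ^ n) := by ring
      rw [e, map_mul, aeval_X, Module.End.mul_apply, hj1, hπD, ih, smul_smul,
        eval₂_mul (p := X), eval₂_X]
  have c3 : ∀ x : Λ, π (j x) ∈ S := by
    intro x
    have h5 := c1 _ (hgen x)
    rw [c2] at h5
    have h6 := S.smul_mem (eval₂ ρ ζ Ψ)⁻¹ h5
    rwa [smul_smul, inv_mul_cancel₀ hΨ, one_smul] at h6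
  have c4 : ∀ v : V, π v ∈ S := by
    intro v
    have hv : v ∈ Submodule.span k (Set.range j) := hspan ▸ Submodule.mem_top
    induction hv using Submodule.span_induction with
    | mem y hy =>
      obtain ⟨x, rfl⟩ := hy
      exact c3 x
    | zero => rw [map_zero]; exact Submodule.zero_mem _
    | add y z _ _ hy hz => rw [map_add]; exact Submodule.add_mem _ hy hz
    | smul c y _ hy => rw [map_smul]; exact Submodule.smul_mem _ _ hy
  have c5 : LinearMap.ker (D' - ζ • LinearMap.id) ≤ S := by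
    intro v hv
    rw [LinearMap.mem_ker, LinearMap.sub_apply, LinearMap.smul_apply, LinearMap.id_apply,
      sub_eq_zero] at hv
    have h7 := c4 v
    rw [hπk v hv] at h7
    have h8 := S.smul_mem ((m : k) * ζ ^ (m - 1))⁻¹ h7
    rwa [smul_smul, inv_mul_cancel₀ (mul_ne_zero hmk (pow_ne_zero _ hζ0)), one_smul] at h8
  calc finrank k (LinearMap.ker (D' - ζ • LinearMap.id)) ≤ finrank k S :=
        Submodule.finrank_mono c5
    _ ≤ (Z.image fun z => π (j z)).card := finrank_span_finset_le_card _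
    _ ≤ Z.card := Finset.card_image_le

end lat

theorem s_lat : S_LAT := by
  intro k _ _ m ζ Φ P hPhi Λ _ _ _ _ D hD V _ _ _ D' j hj1 hj2 hspan d hd
  classical
  obtain ⟨Ψ, hΨ⟩ := hPhi.dvd
  have hDm : ∀ x, (D ^ m) x = x := by
    intro x
    rw [Module.End.pow_apply]
    exact hD x
  have hPe := hPhi.map
  have hcopr : IsCoprime (Φ.map (PadicInt.toZMod : ℤ_[2] →+* ZMod 2))
      (Ψ.map (PadicInt.toZMod : ℤ_[2] →+* ZMod 2)) := by
    refine Separable.isCoprime ?_
    rw [← Polynomial.map_mul, ← hΨ, Polynomial.map_sub, Polynomial.map_pow, map_X,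
      Polynomial.map_one]
    have h1 : ((m : ℕ) : ZMod 2) ≠ 0 := by
      intro h
      have := (ZMod.natCast_eq_zero_iff_even).1 h
      exact (Nat.not_even_iff_odd.2 hPhi.odd) this
    have := separable_X_pow_sub_C (1 : ZMod 2) h1 one_ne_zero
    rwa [C_1] at this
  let N : Submodule ℤ_[2] Λ := LinearMap.range (aeval D Ψ)
  have hst : ∀ (G : ℤ_[2][X]), ∀ x ∈ N, aeval D G x ∈ N := by
    rintro G _ ⟨y, rfl⟩
    refine ⟨aeval D G y, ?_⟩
    rw [← Module.End.mul_apply, ← Module.End.mul_apply, ← map_mul, ← map_mul, mul_comm]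
  have hΦ0 : ∀ x ∈ N, aeval D Φ x = 0 := by
    rintro _ ⟨y, rfl⟩
    rw [← Module.End.mul_apply, ← map_mul, ← hΨ, map_sub, map_pow, aeval_X, map_one,
      LinearMap.sub_apply, hDm, Module.End.one_apply, sub_self]
  have sat : ∀ x ∈ N, (∃ u, x = (2 : ℤ_[2]) • u) → x ∈ (Ideal.span {(2 : ℤ_[2])}) • N := by
    rintro x hx ⟨u, hu⟩
    obtain ⟨a, b, c, habc⟩ := cop_lift _ _ hcopr
    have h1 := congrArg (fun F => aeval D F x) habc
    simp only [map_add, map_mul, map_one, LinearMap.add_apply, Module.End.mul_apply,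
      Module.End.one_apply, aeval_C, Module.algebraMap_end_apply] at h1
    rw [hΦ0 x hx, map_zero, zero_add] at h1
    have h2 : x = aeval D b (aeval D Ψ x) - (2 : ℤ_[2]) • aeval D c x := by
      rw [h1]
      abel
    rw [h2]
    refine Submodule.sub_mem _ ?_ (mem_two.2 ⟨_, hst c x hx, rfl⟩)
    rw [hu, map_smul, map_smul]
    exact mem_two.2 ⟨_, hst b _ ⟨u, rfl⟩, rfl⟩
  obtain ⟨Z, hZN, hgen, hmin⟩ := exists_min D N (IsNoetherian.noetherian N)
  have hNak : N ≤ Gs D Z := by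
    refine Submodule.le_of_le_smul_of_le_jacobson_bot (I := Ideal.span {(2 : ℤ_[2])})
      (IsNoetherian.noetherian N) ?_ hgen
    have h1 := PadicInt.maximalIdeal_eq_span_p (p := 2)
    have h2 := IsLocalRing.maximalIdeal_le_jacobson (R := ℤ_[2]) ⊥
    rw [h1] at h2
    exact_mod_cast h2
  let ρ : ℤ_[2] →+* k := (algebraMap ℚ_[2] k).comp (algebraMap ℤ_[2] ℚ_[2])
  have : CharZero k := charZero_of_injective_algebraMap (algebraMap ℚ_[2] k).injective
  have hm0 : m ≠ 0 := by have := hPhi.one_lt; omega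
  have hζ0 : ζ ≠ 0 := hPhi.prim.ne_zero hm0
  have hmk : (m : k) ≠ 0 := Nat.cast_ne_zero.2 hm0
  have hΨζ : eval₂ ρ ζ Ψ ≠ 0 := by
    intro h0
    have h1 := congrArg (fun F => eval₂ ρ ζ (derivative F)) hΨ
    simp only [derivative_mul, eval₂_add, eval₂_mul, h0, mul_zero, zero_add] at h1
    have hr : eval₂ ρ ζ Φ = 0 := hPhi.root
    rw [hr, zero_mul] at h1
    rw [derivative_sub, derivative_one, sub_zero, derivative_X_pow, eval₂_mul, eval₂_C, eval₂_pow,
      eval₂_X, map_natCast] at h1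
    exact mul_ne_zero hmk (pow_ne_zero _ hζ0) h1
  have hdZ : d ≤ Z.card := hd.trans (dimbd D k ρ m ζ hmk hζ0 hPhi.prim.pow_eq_one Ψ hΨζ hDm V D' j
    hj1 hj2 hspan Z (fun x => hNak ⟨x, rfl⟩))
  let E : Finset (Λ × ℕ) := Z ×ˢ Finset.range P.natDegree
  let full : Finset Λ := E.powerset.image fun A => ∑ p ∈ A, (D ^ p.2) p.1
  have hinj : ∀ A ∈ E.powerset, ∀ B ∈ E.powerset,
      (∃ b, ∑ p ∈ A, (D ^ p.2) p.1 = ∑ p ∈ B, (D ^ p.2) p.1 + (2 : ℤ_[2]) • b) → A = B := by
    intro A hA B hB h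
    exact inj D N hst Φ hΦ0 sat P hPe hPhi.irr Z hZN hgen hmin A B (Finset.mem_powerset.1 hA)
      (Finset.mem_powerset.1 hB) h
  have hcard : full.card = 2 ^ (Z.card * P.natDegree) := by
    simp only [full]
    rw [Finset.card_image_of_injOn]
    · rw [Finset.card_powerset, Finset.card_product, Finset.card_range]
    · intro A hA B hB h
      exact hinj A (Finset.mem_coe.1 hA) B (Finset.mem_coe.1 hB) ⟨0, by
        simp only at h
        rw [h, smul_zero, add_zero]⟩
  obtain ⟨F, hF1, hF2⟩ := Finset.exists_subset_card_eq (s := full)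
    (n := 2 ^ (P.natDegree * d)) (by
      rw [hcard, mul_comm Z.card]
      exact Nat.pow_le_pow_right (by norm_num) (Nat.mul_le_mul_left _ hdZ))
  refine ⟨F, hF2, ?_, ?_⟩
  · intro x hx
    obtain ⟨A, hA, rfl⟩ := Finset.mem_image.1 (hF1 hx)
    have hxN : ∑ p ∈ A, (D ^ p.2) p.1 ∈ N := by
      refine Submodule.sum_mem _ fun p hp => ?_
      have h1 := Finset.mem_product.1 (Finset.mem_powerset.1 hA hp)
      have h2 := hst (X ^ p.2) p.1 (hZN _ h1.1)
      rwa [map_pow, aeval_X] at h2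
    set x := ∑ p ∈ A, (D ^ p.2) p.1 with hx
    let Pt : ℤ_[2][X] := ∑ i ∈ P.support, X ^ i
    have hPt : (Pt - Φ).map (PadicInt.toZMod : ℤ_[2] →+* ZMod 2) = 0 := by
      rw [Polynomial.map_sub, ← hPe, sub_eq_zero]
      simp only [Pt]
      rw [Polynomial.map_sum]
      conv_rhs => rw [P.as_sum_support_C_mul_X_pow]
      refine Finset.sum_congr rfl fun i hi => ?_
      have h3 : P.coeff i = 1 := by
        have h4 := mem_support_iff.1 hi
        revert h4
        generalize P.coeff i = t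
        revert t
        decide
      rw [Polynomial.map_pow, map_X, h3, C_1, one_mul]
    obtain ⟨c, hc⟩ := dvd_of_map_zero _ hPt
    refine ⟨aeval D c x, ?_⟩
    have h5 : aeval D Pt x = ∑ i ∈ P.support, D^[i] x := by
      simp only [Pt, map_sum, map_pow, aeval_X, LinearMap.sum_apply]
      exact Finset.sum_congr rfl fun i _ => Module.End.pow_apply D i x
    rw [← h5]
    have h6 : Pt = Φ + C (2 : ℤ_[2]) * c := by rw [← hc]; ring
    rw [h6, map_add, map_mul, LinearMap.add_apply, Module.End.mul_apply, hΦ0 x hxN, zero_add,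
      aeval_C, Module.algebraMap_end_apply]
  · intro x hx y hy hxy hcon
    obtain ⟨A, hA, rfl⟩ := Finset.mem_image.1 (hF1 hx)
    obtain ⟨B, hB, rfl⟩ := Finset.mem_image.1 (hF1 hy)
    exact hxy (by rw [hinj A hA B hB hcon])

end Pool.Agent.Helper32.RS
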